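import Mathlib
import Pool.Agent.R528.RM.ZeroFinal

set_option autoImplicit false

/-!
# Random models of the primes: exactly which functions are admissible

The problem asks for the smallest functions `h` such that the open interval `(n, n + h(n))` contains
a prime for all large `n`.  The theorem below answers the analogous question completely in EVERY
random model of the primes in which the integers are decided one after the other and the conditional
probability of choosing `n + 1` given the past is `1 / (log n + O(1))` (no independence is assumed;
Cramér's model and the Hawkins random sieve are examples): for every nondecreasing `h`, almost surely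

  `(n, n + h(n))` contains a chosen integer for all large `n`
      if and only if   `∑ exp (- h(n) / log n) / log n < ∞`.

For instance `h(n) = (log n)² + θ log n log log log n` is admissible exactly for `θ > 1`, and
`h(n) = (log n)² + log n (log log log n + θ log log log log n)` is admissible exactly for `θ > 1`.
-/

open MeasureTheory Filter
open scoped Topology

namespace Pool.Agent.Results.MP_c853c5_nt.AdmissibleZeroOneLaw

/-- `h` is admissible for the set `S`: for all large `n` the open interval `(n, n + h(n))` contains
an element of `S` -/
def Admissible (S : Set ℕ) (h : ℕ → ℝ) : Prop := ∀ᶠ n : ℕ in atTop, ∃ a, a ∈ S ∧ n < a ∧ (a : ℝ) < n + h n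

end Pool.Agent.Results.MP_c853c5_nt.AdmissibleZeroOneLaw

open Pool.Agent.Results.MP_c853c5_nt.AdmissibleZeroOneLaw

/-- Let `A n` be the event that `n` belongs to a random set adapted to a filtration `ℱ`, such that
almost surely the reciprocal of the conditional probability of `A (n + 1)` given `ℱ n` is
`log n + O(1)` (with a bound that may depend on the outcome).  Then, for every nondecreasing
`h : ℕ → ℝ`, almost surely `h` is admissible for the random set if and only if the series
`∑ exp (- h(n) / log n) / log n` converges. -/
theorem Pool.Agent.Results.MP_c853c5_nt.AdmissibleZeroOneLaw.result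
    {Ω : Type} [mΩ : MeasurableSpace Ω] (μ : Measure Ω) [IsProbabilityMeasure μ]
    (ℱ : Filtration ℕ mΩ) (A : ℕ → Set Ω) (hA : ∀ n, MeasurableSet[ℱ n] (A n))
    (hd : ∀ᵐ ω ∂μ, ∃ K : ℝ, ∀ᶠ n : ℕ in atTop,
      |((μ[(A (n + 1)).indicator (fun _ => (1 : ℝ)) | ℱ n]) ω)⁻¹ - Real.log n| ≤ K)
    (h : ℕ → ℝ) (hmono : Monotone h) :
    ∀ᵐ ω ∂μ, (Admissible {a | ω ∈ A a} h ↔
      Summable (fun n : ℕ => Real.exp (-(h n / Real.log n)) / Real.log n)) :=
  Pool.Agent.R528.RM.zero_one hA hd h hmono
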