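import Mathlib
import Pool.Agent.R463.One
import Pool.Agent.Y879.GL.Pattern

set_option autoImplicit false

/-!
# The gaps between the integers without prime factors up to a small power, in all short intervals

The analogue of `g` for the integers free of prime factors `≤ X ^ (1 / r)`: in ALL intervals of length at least
`X ^ θ` the gaps exceed `T` with the frequency `exp (- T V)`.
-/

namespace Pool.Agent.Results.MP_c853c5_nt.GapLaws

open Finset Filter
open Pool.Agent.R463.PS

/-- `m` has no prime factor `p ≤ X ^ (1 / r)` -/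
def Good (X r m : ℕ) : Prop := ∀ p : ℕ, p.Prime → (p : ℝ) ≤ (X : ℝ) ^ (1 / (r : ℝ)) → ¬ p ∣ m

/-- the density: the product of `1 - 1 / p` over the primes `p ≤ X ^ (1 / r)` -/
noncomputable def V (X r : ℕ) : ℝ :=
  ∏ p ∈ (Icc 1 ⌊(X : ℝ) ^ (1 / (r : ℝ))⌋₊).filter Nat.Prime, (1 - 1 / (p : ℝ))

lemma good_iff (X r m : ℕ) : Good X r m ↔ Sifted idf X r m := (idf_sift X r m).symm

lemma V_eq (X r : ℕ) : V X r = V1 X r := rfl

/-- the primes `p > X` are good -/
lemma good_prime {X r p : ℕ} (hX : 1 ≤ X) (hr : 1 ≤ r) (hp : p.Prime) (hXp : X < p) : Good X r p := by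
  intro q hq hqX hd
  have h1 : q = p := (Nat.prime_dvd_prime_iff_eq hq hp).1 hd
  have hX1 : (1 : ℝ) ≤ X := by exact_mod_cast hX
  have hr1 : (1 : ℝ) ≤ r := by exact_mod_cast hr
  have h2 : (X : ℝ) ^ (1 / (r : ℝ)) ≤ X := by
    calc (X : ℝ) ^ (1 / (r : ℝ)) ≤ (X : ℝ) ^ (1 : ℝ) :=
          Real.rpow_le_rpow_of_exponent_le hX1 (by rw [div_le_one (by linarith)]; exact hr1)
      _ = X := Real.rpow_one _
  have h3 : (q : ℝ) ≤ X := hqX.trans h2
  have h4 : q ≤ X := by exact_mod_cast h3
  omega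

/-- good integers up to `X ^ 3` have at most `3 r` prime factors -/
lemma good_few {X r m : ℕ} (hX : 2 ≤ X) (hr : 1 ≤ r) (hm : m ≠ 0) (hmX : m ≤ X ^ 3) (h : Good X r m) :
    m.primeFactorsList.length ≤ 3 * r := by
  have hX1 : (1 : ℝ) < X := by exact_mod_cast (by omega : 1 < X)
  have hr1 : (0 : ℝ) < r := by exact_mod_cast (by omega : 0 < r)
  refine Pool.Agent.Y879.GL.few_of_rough ((X : ℝ) ^ (1 / (r : ℝ))) (Real.one_lt_rpow hX1 (by positivity)) m
    (3 * r) hm ?_ (fun q hq hqm => ?_)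
  · rw [← Real.rpow_natCast, ← Real.rpow_mul (by positivity)]
    have e : 1 / (r : ℝ) * ((3 * r : ℕ) : ℝ) = ((3 : ℕ) : ℝ) := by
      push_cast
      field_simp
    rw [e, Real.rpow_natCast]
    exact_mod_cast hmX
  · by_contra hcon
    push Not at hcon
    exact h q hq hcon hqm

open Classical in
/-- the number of the good `m` in `(Z, Z + Y]` for which fewer than `l` of the integers in `[m - T, m)`
are good -/
noncomputable def Far (X r l T Z Y : ℕ) : ℕ :=
  ((Ioc Z (Z + Y)).filter (fun m => Good X r m ∧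
    ((Ico (m - T) m).filter (fun n => Good X r n)).card < l)).card

lemma Far_eq (X r l T Z Y : ℕ) : Far X r l T Z Y = Pool.Agent.R463.PS.Far idf X r l T Z Y := by
  classical
  unfold Far Pool.Agent.R463.PS.Far
  congr 1
  apply filter_congr
  intro m _
  rw [good_iff]
  have : (Ico (m - T) m).filter (fun n => Good X r n) = (Ico (m - T) m).filter (fun n => Sifted idf X r n) :=
    filter_congr fun n _ => good_iff X r n
  rw [this]

open Classical in
/-- the number of the good `m` in `(Z, Z + Y]` with no good integer in `[m - T, m)` -/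
noncomputable def Free (X r T Z Y : ℕ) : ℕ :=
  ((Ioc Z (Z + Y)).filter (fun m => Good X r m ∧ ∀ n ∈ Ico (m - T) m, ¬ Good X r n)).card

/-- **The gap laws.** Let `θ > 0`, `ε > 0`, `l₀`, `x₀`. There is `r₀` such that for all `r ≥ r₀` and all large
`X`:
(1) every prime `p > X` is good, and every good `0 < m ≤ X ^ 3` has at most `3 r` prime factors;
(2) for ALL intervals `(Z, Z + Y]` with `Y ≥ X ^ θ` and ALL `T`, the number of the good `m` in the interval with
no good integer in `[m - T, m)`, that is, of the gaps `> T` ending at `m`, is `Y V exp (- T V)`, up to `ε Y V`;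
(3) in the same intervals the number `Far` of the good `m` with fewer than `l` good integers in `[m - T, m)` is
the value `Y V ∑_{j < l} exp (- T V) (T V) ^ j / j!` for the Poisson process of density `V`, up to `ε Y V`, for all
`l ≤ l₀` and all `T`, and for all `l` and all `T ≤ x₀ / V`. -/
theorem result (θ : ℝ) (hθ : 0 < θ) (l₀ : ℕ) (x₀ ε : ℝ) (hε : 0 < ε) :
    ∃ r₀ : ℕ, ∀ r : ℕ, r₀ ≤ r → ∀ᶠ X : ℕ in atTop,
      ((∀ p : ℕ, p.Prime → X < p → Good X r p) ∧
        ∀ m : ℕ, m ≠ 0 → m ≤ X ^ 3 → Good X r m → m.primeFactorsList.length ≤ 3 * r) ∧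
      (∀ Z Y : ℕ, (X : ℝ) ^ θ ≤ Y → ∀ T : ℕ,
        |(Free X r T Z Y : ℝ) - Y * V X r * Real.exp (-(T * V X r))| ≤ ε * (Y * V X r)) ∧
      ∀ Z Y : ℕ, (X : ℝ) ^ θ ≤ Y → ∀ l T : ℕ, (l ≤ l₀ ∨ T * V X r ≤ x₀) →
        |(Far X r l T Z Y : ℝ) - Y * V X r *
          ∑ j ∈ range l, Real.exp (-(T * V X r)) * (T * V X r) ^ j / j.factorial| ≤
          ε * (Y * V X r) := by
  classical
  obtain ⟨r₀, hr₀, h⟩ := one_gaps θ hθ (max l₀ 1) x₀ ε hε
  refine ⟨r₀, fun r hr => ?_⟩
  filter_upwards [h r hr, eventually_ge_atTop 2] with n h1 h2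
  refine ⟨⟨fun p hp hnp => good_prime (by omega) (by omega) hp hnp, fun m hm hmn hg =>
    good_few h2 (by omega) hm hmn hg⟩, ?_, ?_⟩
  · intro Z Y hY T
    have h3 := h1 Z Y hY 1 T (Or.inl (le_max_right _ _))
    rw [← V_eq, ← Far_eq] at h3
    have e1 : Far n r 1 T Z Y = Free n r T Z Y := by
      unfold Far Free
      congr 1
      apply filter_congr
      intro m _
      rw [Nat.lt_one_iff, Finset.card_eq_zero, Finset.filter_eq_empty_iff]
    rw [e1] at h3
    simpa using h3
  · intro Z Y hY l T hT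
    have h3 := h1 Z Y hY l T (hT.imp (fun h => h.trans (le_max_left _ _)) (fun h => h))
    rwa [← V_eq, ← Far_eq] at h3

end Pool.Agent.Results.MP_c853c5_nt.GapLaws
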