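import Mathlib
import Pool.Agent.R463.NarLin

set_option autoImplicit false

/-!
# Long prime gaps along narrow arithmetic progressions

For EVERY function `h`: almost all primes `p` with `g(p) > h(p)` in an interval of length at least `X ^ θ`, up
to `ε` times the expected number `Y / log X` of all primes, are terms of `l`-term arithmetic progressions of such
primes with difference at most a power of `log X` which does not depend on `h`. The same for arbitrary sets of
primes.
-/

namespace Pool.Agent.Results.MP_c853c5_nt.NarrowProgressions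

open Finset Filter

/-- The integers all prime factors of which are larger than `m ^ (1 / r)`. -/
def RoughAt (r : ℕ) : Set ℕ := {m | ∀ p : ℕ, p.Prime → p ∣ m → (m : ℝ) ^ (1 / (r : ℝ)) < (p : ℝ)}

/-- `m` is a term of an `l`-term arithmetic progression with difference at most `D`, all terms of which
are elements of `A` in the interval `(a, b]`. -/
def InProgression (A : Set ℕ) (l : ℕ) (D : ℝ) (a b m : ℕ) : Prop :=
  ∃ u d : ℕ, 1 ≤ d ∧ (d : ℝ) ≤ D ∧ (∀ i < l, u + i * d ∈ A ∧ a < u + i * d ∧ u + i * d ≤ b) ∧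
    ∃ i < l, m = u + i * d

lemma InProgression.mono {A : Set ℕ} {l : ℕ} {D D' : ℝ} {a b m : ℕ} (h : InProgression A l D a b m)
    (hD : D ≤ D') : InProgression A l D' a b m := by
  obtain ⟨u, d, h1, h2, h3⟩ := h
  exact ⟨u, d, h1, h2.trans hD, h3⟩

/-- all primes are in `RoughAt r` -/
lemma prime_mem (r : ℕ) (hr : 2 ≤ r) (q : ℕ) (hq : q.Prime) : q ∈ RoughAt r := by
  intro p hp hd
  have h1 : p = q := (Nat.prime_dvd_prime_iff_eq hp hq).1 hd
  have h2 : (1 : ℝ) < q := by exact_mod_cast hq.one_lt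
  have hr2 : (2 : ℝ) ≤ r := by exact_mod_cast hr
  rw [h1]
  have h5 : (1 / (r : ℝ)) < 1 := by
    rw [div_lt_one (by linarith)]
    linarith
  have := Real.rpow_lt_rpow_of_exponent_lt h2 h5
  rwa [Real.rpow_one] at this

open Classical in
/-- the general theorem for the form `m` -/
lemma narrow (θ : ℝ) (hθ : 0 < θ) (r : ℕ) (hr : 2 ≤ r) (l : ℕ) (hl : 2 ≤ l) (ε : ℝ) (hε : 0 < ε) :
    ∃ B : ℕ, ∀ᶠ X : ℕ in atTop, ∀ Y : ℕ, (X : ℝ) ^ θ ≤ Y → Y ≤ X →
      ∀ A : Set ℕ, A ⊆ RoughAt r →
        (((Ioc X (X + Y)).filter (fun m : ℕ =>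
          m ∈ A ∧ ¬ InProgression A l (Real.log X ^ B) X (X + Y) m)).card : ℝ) ≤
        ε * (Y / Real.log X) := by
  obtain ⟨B, hB⟩ := Pool.Agent.R463.NL.narrow_lin one_pos (fun _ : Fin 1 => 1) (fun _ => 0) (fun _ => one_pos)
    (fun _ => by rw [Nat.cast_one]; exact isCoprime_one_left) (fun i j _ _ => Subsingleton.elim i j) (fun p hp => ⟨1, fun _ h => by
      have h1 : (p : ℤ) ∣ ((1 : ℕ) : ℤ) := by simpa using h
      exact hp.one_lt.ne' (Nat.dvd_one.1 (Int.natCast_dvd_natCast.1 h1))⟩) θ hθ r hr l hl ε hε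
  refine ⟨B, ?_⟩
  filter_upwards [hB] with X hX Y hXY hYX A hA
  have h := hX Y hXY hYX A (fun m hm => by
    intro i p hp hd
    refine hA hm p hp ?_
    have h1 : (p : ℤ) ∣ (m : ℤ) := by simpa using hd
    exact_mod_cast h1)
  rw [pow_one] at h
  exact h

/-- the least prime `q(n) > n` -/
noncomputable def q (n : ℕ) : ℕ := Nat.find (Nat.exists_infinite_primes (n + 1))

/-- `g(n) = q(n) - n` -/
noncomputable def g (n : ℕ) : ℕ := q n - n

/-- the primes `p` with `g(p) > h(p)` -/
def Long (h : ℕ → ℝ) : Set ℕ := {p | p.Prime ∧ h p < g p}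

/-- the primes `p` with `g(p) ≤ h(p)` -/
def Short (h : ℕ → ℝ) : Set ℕ := {p | p.Prime ∧ (g p : ℝ) ≤ h p}

open Classical in
/-- **Long gaps along narrow progressions.** Let `θ > 0`, `l ≥ 2` and `ε > 0`. There is `B` such that for all
large `X` and all `X ^ θ ≤ Y ≤ X`:
(1) for EVERY function `h`, all but at most `ε Y / log X` of the primes `p` with `g(p) > h(p)` in `(X, X + Y]`
are terms of `l`-term arithmetic progressions, with difference at most `(log X) ^ B`, of primes `p'` in
`(X, X + Y]` with `g(p') > h(p')`;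
(2) the same for the primes `p` with `g(p) ≤ h(p)`;
(3) more generally, for EVERY set `A` of primes, all but at most `ε Y / log X` of the elements of `A` in
`(X, X + Y]` are terms of `l`-term arithmetic progressions, contained in the part of `A` in `(X, X + Y]`, with
difference at most `(log X) ^ B`. -/
theorem result (θ : ℝ) (hθ : 0 < θ) (l : ℕ) (hl : 2 ≤ l) (ε : ℝ) (hε : 0 < ε) :
    ∃ B : ℕ, ∀ᶠ X : ℕ in atTop, ∀ Y : ℕ, (X : ℝ) ^ θ ≤ Y → Y ≤ X →
      (∀ h : ℕ → ℝ, (((Ioc X (X + Y)).filter (fun p : ℕ =>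
          p ∈ Long h ∧ ¬ InProgression (Long h) l (Real.log X ^ B) X (X + Y) p)).card : ℝ) ≤
        ε * (Y / Real.log X)) ∧
      (∀ h : ℕ → ℝ, (((Ioc X (X + Y)).filter (fun p : ℕ =>
          p ∈ Short h ∧ ¬ InProgression (Short h) l (Real.log X ^ B) X (X + Y) p)).card : ℝ) ≤
        ε * (Y / Real.log X)) ∧
      ∀ A : Set ℕ, (∀ p ∈ A, p.Prime) →
        (((Ioc X (X + Y)).filter (fun p : ℕ =>
          p ∈ A ∧ ¬ InProgression A l (Real.log X ^ B) X (X + Y) p)).card : ℝ) ≤
        ε * (Y / Real.log X) := by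
  obtain ⟨B, hB⟩ := narrow θ hθ 2 le_rfl l hl ε hε
  refine ⟨B, ?_⟩
  filter_upwards [hB] with X hX Y hXY hYX
  have key : ∀ A : Set ℕ, (∀ p ∈ A, p.Prime) →
        (((Ioc X (X + Y)).filter (fun p : ℕ =>
          p ∈ A ∧ ¬ InProgression A l (Real.log X ^ B) X (X + Y) p)).card : ℝ) ≤
        ε * (Y / Real.log X) :=
    fun A hA => hX Y hXY hYX A (fun m hm => prime_mem 2 le_rfl m (hA m hm))
  exact ⟨fun h => key _ (fun p hp => hp.1), fun h => key _ (fun p hp => hp.1), key⟩

end Pool.Agent.Results.MP_c853c5_nt.NarrowProgressions
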