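import Mathlib
import Pool.Agent.R463.PrReg

set_option autoImplicit false

/-!
# The primes around a typical prime, in short intervals, at all scales

Almost all elements of every set of primes, for instance of the set of the primes `p` with `g(p) > h(p)` for an
arbitrary function `h`, see the set in all windows around them with the right order of magnitude, and at all
scales with few exceptions with a constant density.
-/

namespace Pool.Agent.Results.MP_c853c5_nt.RegularPoints

open Finset Filter
open Pool.Agent.R463.PrReg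

/-- the least prime `q(n) > n` -/
noncomputable def q (n : ℕ) : ℕ := Nat.find (Nat.exists_infinite_primes (n + 1))

/-- `g(n) = q(n) - n` -/
noncomputable def g (n : ℕ) : ℕ := q n - n

/-- the primes `p` with `g(p) > h(p)` -/
def Long (h : ℕ → ℝ) : Set ℕ := {p | p.Prime ∧ h p < g p}

/-- the primes `p` with `g(p) ≤ h(p)` -/
def Short (h : ℕ → ℝ) : Set ℕ := {p | p.Prime ∧ (g p : ℝ) ≤ h p}

open Classical in
/-- **The gaps around a typical prime, at all scales.** Let `0 < θ ≤ 1`. For all `ε > 0` there is `c > 0`, and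
for all `δ > 0` there is `B`, such that for all large `X`, all `X ^ θ ≤ Y ≤ X / 2` and EVERY set `A` of primes:
at most `ε Y / log X` elements `m` of `A` in `(X, X + Y]` are not regular points of `A`; in particular this holds
for the set `Long h` of the primes `p` with `g(p) > h(p)` and the set `Short h` of the primes with
`g(p) ≤ h(p)`, for EVERY function `h`. Regular point: (1) all intervals `(m - s, m + t]` with `s, t ≤ Y` and
`c (s + t) ≥ log X` contain between `c (s + t) / log X` and `(s + t) / (c log X)` elements of `A`; (2) for all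
scales `log X ≤ 2 ^ j ≤ Y` with at most `B` exceptions there is a proportion `c ≤ lam ≤ 1 / c` such that all
`(m - s, m + t]`, `s, t ≤ 2 ^ j`, contain `lam (s + t) / log X` elements of `A`, up to `δ 2 ^ j / log X`. -/
theorem result (θ : ℝ) (hθ : 0 < θ) (hθ1 : θ ≤ 1) (ε : ℝ) (hε : 0 < ε) : ∃ c : ℝ, 0 < c ∧ ∀ δ : ℝ, 0 < δ →
    ∃ B : ℕ, ∀ᶠ X : ℕ in atTop, ∀ Y : ℕ, (X : ℝ) ^ θ ≤ Y → 2 * Y ≤ X →
      (∀ h : ℕ → ℝ, ∀ A : Set ℕ, (A = Long h ∨ A = Short h) →
        (((Ioc X (X + Y)).filter (fun m => m ∈ A ∧ ¬ Regular A c δ B X Y m)).card : ℝ) ≤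
          ε * Y / Real.log X) ∧
      ∀ A : Set ℕ, (∀ p ∈ A, p.Prime) →
        (((Ioc X (X + Y)).filter (fun m => m ∈ A ∧ ¬ Regular A c δ B X Y m)).card : ℝ) ≤
          ε * Y / Real.log X := by
  obtain ⟨r, hr, h⟩ := reg θ hθ hθ1
  obtain ⟨c, hc, h1⟩ := h r le_rfl ε hε
  refine ⟨c, hc, fun δ hδ => ?_⟩
  obtain ⟨B, h2⟩ := h1 δ hδ
  refine ⟨B, ?_⟩
  filter_upwards [h2] with X hX Y hXY hYX
  have key : ∀ A : Set ℕ, (∀ p ∈ A, p.Prime) →
        (((Ioc X (X + Y)).filter (fun m => m ∈ A ∧ ¬ Regular A c δ B X Y m)).card : ℝ) ≤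
          ε * Y / Real.log X := by
    intro A hA
    refine hX Y hXY hYX A (fun q hq => ?_)
    have hqp : q.Prime := hA q hq
    intro p hp hd
    have h1 : p = q := (Nat.prime_dvd_prime_iff_eq hp hqp).1 hd
    have h2 : (1 : ℝ) < q := by exact_mod_cast hqp.one_lt
    have hr2 : (2 : ℝ) ≤ r := by exact_mod_cast hr
    rw [h1]
    have h5 : (1 / (r : ℝ)) < 1 := by
      rw [div_lt_one (by linarith)]
      linarith
    have := Real.rpow_lt_rpow_of_exponent_lt h2 h5
    rwa [Real.rpow_one] at this
  refine ⟨fun h A hA => key A ?_, key⟩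
  rcases hA with rfl | rfl
  · exact fun p hp => hp.1
  · exact fun p hp => hp.1

end Pool.Agent.Results.MP_c853c5_nt.RegularPoints
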